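import Pool.Agent.Helper60_ZMad.Analytic

/-!
# Every analytic `Z₀`-MAD family is countable

Hence there is no uncountable analytic maximal almost disjoint family for the density zero ideal.

Sketch of the proof. Work with the blocks `[2 ^ m, 2 ^ (m + 1))` and their normalised counting
measures `mu m`. For a `Z₀`-MAD family `𝒜`, every infinite set of blocks contains an infinite set of
blocks on which a finite union of members of `𝒜` has measure at least `1 - η`. For `c > 0` the sets
`C` of blocks such that each finite union of members misses measure almost `c` on infinitely many
blocks of `C` form a selective coideal, whose complement is analytic if `𝒜` is, and every infinite set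
contains an infinite set outside the coideal. By a Mathias type theorem the coideal is empty, for all
`c > 0`, which forces `𝒜` to be countable.
-/

set_option autoImplicit false

open Pool.Agent.Helper60.ZMad

/-- Every analytic `Z₀`-MAD family of subsets of `ℕ` is countable. -/
theorem Pool.Agent.Results.MP_af84fe_lc.AnalyticMadCountable.result
    (𝒜 : Set (Set ℕ)) (hmad : IsZ0Mad 𝒜) (hanalytic : IsAnalyticFamily 𝒜) : 𝒜.Countable :=
  countable_of_analytic_mad hmad hanalytic
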